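import Mathlib
import Pool.Agent.H27.BaireExt

set_option autoImplicit false

namespace Pool.Agent.Results.MP_0c5bac_gt.Extension

open scoped Pointwise

universe u

theorem result (G : Type u) [Group G] [TopologicalSpace G] [IsTopologicalGroup G]
    (K : Subgroup G) [K.Normal] (hK : IsCompact (K : Set G)) [BaireSpace (G ⧸ K)] :
    BaireSpace G := by
  refine Pool.Agent.H27.BaireExt.baire_of_open (QuotientGroup.mk : G → G ⧸ K)
    QuotientGroup.continuous_mk QuotientGroup.isOpenMap_coe (fun y => ?_)
  obtain ⟨g, rfl⟩ := QuotientGroup.mk_surjective y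
  have : (QuotientGroup.mk : G → G ⧸ K) ⁻¹' {(g : G ⧸ K)} = (fun k => g * k) '' (K : Set G) := by
    ext x
    simp only [Set.mem_preimage, Set.mem_singleton_iff, Set.mem_image, SetLike.mem_coe]
    rw [eq_comm, QuotientGroup.eq]
    constructor
    · intro h; exact ⟨_, h, by group⟩
    · rintro ⟨k, hk, rfl⟩; simpa using hk
  rw [this]
  exact hK.image (continuous_const.mul continuous_id)

end Pool.Agent.Results.MP_0c5bac_gt.Extension
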