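import Mathlib

namespace Pool.Agent.Results.MP_0c5bac_gt.Yes

open Set Filter Topology

lemma step {X Y : Type*} [TopologicalSpace X] [TopologicalSpace Y] [RegularSpace X] {p : X → Y}
    (hp : Continuous p) (A : Set (Set X)) (hA : ∀ U ∈ A, IsOpen U) {O : Set X}
    (hO : IsOpen O) (hO' : Dense O) :
    ∃ B : Set (Set X), (∀ V ∈ B, IsOpen V ∧ ∃ U ∈ A, closure V ⊆ U ∩ O) ∧
      B.PairwiseDisjoint (fun V => p '' V) ∧
      ∀ W : Set Y, IsOpen W → (∃ U ∈ A, (W ∩ p '' U).Nonempty) → ∃ V ∈ B, (W ∩ p '' V).Nonempty := by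
  obtain ⟨B, hB⟩ := zorn_subset {B : Set (Set X) | (∀ V ∈ B, IsOpen V ∧ ∃ U ∈ A,
      closure V ⊆ U ∩ O) ∧ B.PairwiseDisjoint (fun V => p '' V)} fun c hc hch =>
    ⟨⋃₀ c, ⟨fun V ⟨s, hs, hV⟩ => (hc hs).1 V hV, by
      rintro x ⟨s, hs, hx⟩ y ⟨s', hs', hy⟩ hxy
      rcases hch.total hs hs' with e | e
      · exact (hc hs').2 (e hx) hy hxy
      · exact (hc hs).2 hx (e hy) hxy⟩, fun s hs => subset_sUnion_of_mem hs⟩
  refine ⟨B, hB.prop.1, hB.prop.2, ?_⟩
  rintro W hW ⟨U, hU, _, hw, x, hx, rfl⟩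
  have h1 : IsOpen (U ∩ p ⁻¹' W) := (hA U hU).inter (hW.preimage hp)
  obtain ⟨z, hz, hz'⟩ := hO'.inter_open_nonempty _ h1 ⟨x, hx, hw⟩
  obtain ⟨C, hC, hC1, hC2⟩ := exists_mem_nhds_isClosed_subset ((h1.inter hO).mem_nhds ⟨hz, hz'⟩)
  have h2 : closure (interior C) ⊆ U ∩ p ⁻¹' W ∩ O :=
    (closure_minimal interior_subset hC1).trans hC2
  have h3 : z ∈ interior C := mem_interior_iff_mem_nhds.2 hC
  by_contra h
  push Not at h
  have h4 : insert (interior C) B ⊆ B := hB.le_of_ge (y := insert (interior C) B) ⟨?_, ?_⟩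
    (subset_insert _ _)
  · exact (h _ (h4 (mem_insert _ _))).le (show p z ∈ W ∩ p '' interior C from ⟨hz.2, z, h3, rfl⟩)
  · rintro V (rfl | hV)
    · exact ⟨isOpen_interior, U, hU, fun y hy => ⟨(h2 hy).1.1, (h2 hy).2⟩⟩
    · exact hB.prop.1 V hV
  · refine hB.prop.2.insert fun V hV _ => disjoint_left.2 ?_
    rintro _ ⟨y, hy, rfl⟩ hy'
    exact (h V hV).le (show p y ∈ W ∩ p '' V from ⟨(h2 (subset_closure hy)).1.2, hy'⟩)

theorem baire {X Y : Type*} [TopologicalSpace X] [TopologicalSpace Y] [RegularSpace X]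
    [BaireSpace Y] {p : X → Y} (hp : Continuous p) (ho : IsOpenMap p)
    (hc : ∀ y, IsCompact (p ⁻¹' {y})) : BaireSpace X := by
  refine ⟨fun O hO hO' => dense_iff_inter_open.2 fun U0 hU0 hne => ?_⟩
  choose st h1 h2 h3 using fun (n : ℕ) (A : {A : Set (Set X) // ∀ U ∈ A, IsOpen U}) =>
    step hp A.1 A.2 (hO n) (hO' n)
  let A : ℕ → {A : Set (Set X) // ∀ U ∈ A, IsOpen U} := fun n => Nat.rec
    ⟨{U0}, fun U hU => hU ▸ hU0⟩ (fun n a => ⟨st n a, fun U hU => (h1 n a U hU).1⟩) n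
  have hA0 : (A 0).1 = {U0} := rfl
  have hA : ∀ n, (A (n + 1)).1 = st n (A n) := fun n => rfl
  clear_value A
  have hd : ∀ n, ∀ W : Set Y, IsOpen W → (W ∩ p '' U0).Nonempty →
      ∃ V ∈ (A n).1, (W ∩ p '' V).Nonempty := fun n W hW h => by
    induction n with
    | zero => exact ⟨U0, hA0 ▸ rfl, h⟩
    | succ n ih => exact hA n ▸ h3 n (A n) W hW ih
  have hD := dense_iInter_of_isOpen (f := fun n => (⋃ V ∈ (A n).1, p '' V) ∪ (closure (p '' U0))ᶜ)
    (fun n => (isOpen_biUnion fun V hV => ho V ((A n).2 V hV)).union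
      isClosed_closure.isOpen_compl) fun n => dense_iff_inter_open.2 fun W hW ⟨w, hw⟩ => by
      by_cases h : w ∈ closure (p '' U0)
      · obtain ⟨V, hV, y, hy, hy'⟩ := hd n W hW (mem_closure_iff.1 h W hW hw)
        exact ⟨y, hy, Or.inl (mem_biUnion hV hy')⟩
      · exact ⟨w, hw, Or.inr h⟩
  obtain ⟨y, hy, hy'⟩ := hD.inter_open_nonempty _ (ho U0 hU0) (hne.image p)
  have h4 : ∀ n, ∃ V ∈ (A n).1, y ∈ p '' V := fun n => by
    simpa using (mem_iInter.1 hy' n).resolve_right fun h => h (subset_closure hy)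
  choose V hV hV' using h4
  have h5 : ∀ n, closure (V (n + 1)) ⊆ V n ∩ O n := fun n => by
    obtain ⟨U, hU, hU'⟩ := (h1 n (A n) _ (hA n ▸ hV (n + 1))).2
    have h6 : y ∈ p '' U := image_mono (fun x hx => (hU' (subset_closure hx)).1) (hV' (n + 1))
    suffices h : U = V n from h ▸ hU'
    rcases n with _ | n
    · exact (show U = U0 from by simpa [hA0] using hU).trans
        (show V 0 = U0 from by simpa [hA0] using hV 0).symm
    · by_contra hne
      exact disjoint_left.1 (h2 n (A n) (hA n ▸ hU) (hA n ▸ hV (n + 1)) hne) h6 (hV' _)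
  have h6 : Antitone fun n => closure (V n) := antitone_nat_of_succ_le fun n =>
    fun x hx => subset_closure (h5 n hx).1
  obtain ⟨x, -, hx⟩ := (hc y).inter_iInter_nonempty (fun n => closure (V n))
    (fun n => isClosed_closure) fun u => by
      obtain ⟨x, hx, rfl⟩ := hV' (u.sup id)
      exact ⟨x, rfl, mem_iInter₂.2 fun i hi => h6 (Finset.le_sup (f := id) hi) (subset_closure hx)⟩
  rw [mem_iInter] at hx
  exact ⟨x, (show V 0 = U0 from by simpa [hA0] using hV 0) ▸ (h5 0 (hx 1)).1,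
    mem_iInter.2 fun n => (h5 n (hx (n + 1))).2⟩

theorem result (G : Type*) [Group G] [TopologicalSpace G] [IsTopologicalGroup G] (K : Subgroup G)
    (hK : IsCompact (K : Set G)) [BaireSpace (G ⧸ K)] : BaireSpace G := by
  refine baire (p := (QuotientGroup.mk : G → G ⧸ K)) QuotientGroup.continuous_mk
    QuotientGroup.isOpenMap_coe fun y => ?_
  obtain ⟨g, rfl⟩ := QuotientGroup.mk_surjective y
  convert hK.image (continuous_const_mul g) using 1
  ext x
  simp only [mem_preimage, mem_singleton_iff, eq_comm (a := (x : G ⧸ K)), QuotientGroup.eq,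
    mem_image, SetLike.mem_coe]
  exact ⟨fun h => ⟨_, h, by simp⟩, fun ⟨k, hk, e⟩ => by simpa [← e] using hk⟩

end Pool.Agent.Results.MP_0c5bac_gt.Yes
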